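import Pool.Agent.H6.FACores2

namespace Pool.Agent.Results.MP_8296bc_an.NoCoresolution

open Pool.Agent.H6.FA

universe v

/-- There is a Frechet algebra which has non-zero Frechet modules, and such that no non-zero Frechet
module over it has an injective coresolution. Moreover there is a commutative unital Frechet algebra
which has non-zero unital Frechet modules, none of which has an injective coresolution in the
category of unital Frechet modules. -/
theorem result :
    (∃ 𝒜 : FAlg.{0}, (∃ X : FMod.{0, 0} 𝒜, ∃ x : X.X, x ≠ 0) ∧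
      ∀ X : FMod.{0, v} 𝒜, (∃ x : X.X, x ≠ 0) → ¬ HasInjCoresIn (fun _ => True) X) ∧
    (∃ (𝒜 : FAlg.{0}) (e : 𝒜.A), IsUnitComm 𝒜 e ∧
      (∃ X : FMod.{0, 0} 𝒜, Unital e X ∧ ∃ x : X.X, x ≠ 0) ∧
      ∀ X : FMod.{0, v} 𝒜, Unital e X → (∃ x : X.X, x ≠ 0) → ¬ HasInjCoresIn (Unital e) X) :=
  mainCores

end Pool.Agent.Results.MP_8296bc_an.NoCoresolution
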